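import Mathlib
import Pool.Agent.Y787.FV.Stm

set_option autoImplicit false

/-!
# Sufficiency: bipartite posets in relatively free lattices

Adaptation of the sufficiency part of the starting file
Pool.Agent.Results.MP_71509e_al.BipartiteFreeLattice.
-/

namespace Pool.Agent.Y970.FV

open Pool.Agent.Y787.FV

universe u v w

/-- The meet of `a` and of all members of the list `l`. -/
def meetL {L : Type v} [Lattice L] (a : L) (l : List L) : L := l.foldr (· ⊓ ·) a

/-- The join of `a` and of all members of the list `l`. -/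
def joinL {L : Type v} [Lattice L] (a : L) (l : List L) : L := l.foldr (· ⊔ ·) a

theorem meetL_le_mem {L : Type v} [Lattice L] (a : L) (l : List L) : ∀ b ∈ l, meetL a l ≤ b := by
  induction l with
  | nil => intro b hb; cases hb
  | cons c l ih =>
    intro b hb
    rcases List.mem_cons.1 hb with rfl | hb
    · exact inf_le_left
    · exact inf_le_right.trans (ih b hb)

theorem mem_le_joinL {L : Type v} [Lattice L] (a : L) (l : List L) : ∀ b ∈ l, b ≤ joinL a l := by
  induction l with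
  | nil => intro b hb; cases hb
  | cons c l ih =>
    intro b hb
    rcases List.mem_cons.1 hb with rfl | hb
    · exact le_sup_left
    · exact (ih b hb).trans le_sup_right

theorem hom_meetL {L : Type v} [Lattice L] (h : LatticeHom L Prop) (a : L)
    (l : List L) : h (meetL a l) ↔ h a ∧ ∀ b ∈ l, h b := by
  induction l with
  | nil => simp [meetL]
  | cons c l ih =>
    have : h (meetL a (c :: l)) ↔ h c ∧ h (meetL a l) := by
      change h (c ⊓ meetL a l) ↔ _
      rw [map_inf]; rfl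
    rw [this, ih]
    simp only [List.mem_cons, forall_eq_or_imp]
    tauto

theorem hom_joinL {L : Type v} [Lattice L] (h : LatticeHom L Prop) (a : L)
    (l : List L) : h (joinL a l) ↔ h a ∨ ∃ b ∈ l, h b := by
  induction l with
  | nil => simp [joinL]
  | cons c l ih =>
    have : h (joinL a (c :: l)) ↔ h c ∨ h (joinL a l) := by
      change h (c ⊔ joinL a l) ↔ _
      rw [map_sup]; rfl
    rw [this, ih]
    simp only [List.mem_cons, exists_eq_or_imp]
    tauto

/-- Every valuation of the generators extends to a homomorphism to the two element lattice. -/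
theorem exists_hom {X F : Type w} [Lattice F] {ι : X → F} (hF : IsRelativelyFree ι)
    [Nontrivial F] (ν : X → Prop) : ∃ e : LatticeHom F Prop, ∀ x, e (ι x) = ν x := by
  classical
  obtain ⟨x, y, hxy⟩ := exists_pair_ne F
  obtain ⟨a, b, hab⟩ : ∃ a b : F, a < b := ⟨x ⊓ y, x ⊔ y, inf_lt_sup.2 hxy⟩
  obtain ⟨g, hg⟩ := hF.extends_map (fun x => if ν x then b else a)
  have hne : a ≠ b := hab.ne
  have hsup : ∀ c d : F, (c = a ∨ c = b) → (d = a ∨ d = b) →
      (c ⊔ d = a ∨ c ⊔ d = b) ∧ (c ⊔ d = b ↔ c = b ∨ d = b) := by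
    rintro c d (rfl | rfl) (rfl | rfl)
    · simp
    · rw [sup_eq_right.2 hab.le]; simp
    · rw [sup_eq_left.2 hab.le]; simp
    · simp
  have hinf : ∀ c d : F, (c = a ∨ c = b) → (d = a ∨ d = b) →
      (c ⊓ d = a ∨ c ⊓ d = b) ∧ (c ⊓ d = b ↔ c = b ∧ d = b) := by
    rintro c d (rfl | rfl) (rfl | rfl)
    · simp
    · rw [inf_eq_left.2 hab.le]; simp
    · rw [inf_eq_right.2 hab.le]; simp
    · simp
  let S : Sublattice F :=
    { carrier := {c | g c = a ∨ g c = b}
      supClosed' := by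
        intro c hc d hd
        change g (c ⊔ d) = a ∨ g (c ⊔ d) = b
        rw [map_sup]
        exact (hsup _ _ hc hd).1
      infClosed' := by
        intro c hc d hd
        change g (c ⊓ d) = a ∨ g (c ⊓ d) = b
        rw [map_inf]
        exact (hinf _ _ hc hd).1 }
  have hS : ∀ c, g c = a ∨ g c = b := by
    intro c
    refine hF.generated S (fun x => ?_) c
    change g (ι x) = a ∨ g (ι x) = b
    rw [hg]
    by_cases h : ν x
    · right; rw [if_pos h]
    · left; rw [if_neg h]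
  refine ⟨{ toFun := fun c => g c = b
            map_sup' := fun c d => ?_
            map_inf' := fun c d => ?_ }, fun x => ?_⟩
  · rw [map_sup]
    exact propext (hsup _ _ (hS c) (hS d)).2
  · rw [map_inf]
    exact propext (hinf _ _ (hS c) (hS d)).2
  · change (g (ι x) = b) = ν x
    rw [hg]
    by_cases h : ν x
    · rw [if_pos h]; simp [h]
    · rw [if_neg h]; simp [h, hne]

theorem exists_hom' {X F : Type w} [Lattice F] {ι : X → F} (hF : IsRelativelyFree ι)
    [Nontrivial F] {Z : Type v} (k : Z → X) (hk : Function.Injective k) (ν : Z → Prop) :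
    ∃ e : LatticeHom F Prop, ∀ z, e (ι (k z)) = ν z := by
  obtain ⟨e, he⟩ := exists_hom hF (fun x => ∃ z, k z = x ∧ ν z)
  refine ⟨e, fun z => ?_⟩
  rw [he]
  refine propext ⟨?_, fun h => ⟨z, rfl, h⟩⟩
  rintro ⟨z', h1, h2⟩
  rw [← hk h1]
  exact h2

/-- There are enough generators. -/
theorem exists_inj {P : Type u} {X : Type w} [Infinite X] (j : P → X)
    (hj : Function.Injective j) (C : Set (Set P × Set P))
    (hne : ∀ R ∈ C, ∃ p, p ∈ R.1 ∨ p ∈ R.2)
    (hfin : ∀ p : P, {R ∈ C | p ∈ R.1 ∨ p ∈ R.2}.Finite) :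
    ∃ k : P ⊕ C → X, Function.Injective k := by
  classical
  have hX : Nonempty (X × ℕ ≃ X) := by
    apply Cardinal.eq.1
    rw [Cardinal.mk_prod, Cardinal.lift_uzero, Cardinal.mk_nat, Cardinal.lift_aleph0]
    exact Cardinal.mul_aleph0_eq (Cardinal.aleph0_le_mk X)
  obtain ⟨t⟩ := hX
  choose pR hpR using fun R : C => hne R.1 R.2
  have hf : ∀ p : P, ∃ f : {R : Set P × Set P // R ∈ C ∧ (p ∈ R.1 ∨ p ∈ R.2)} → ℕ,
      Function.Injective f := by
    intro p
    have : Countable {R : Set P × Set P // R ∈ C ∧ (p ∈ R.1 ∨ p ∈ R.2)} :=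
      (hfin p).countable.to_subtype
    exact Countable.exists_injective_nat _
  choose f hf using hf
  refine ⟨Sum.elim (fun p => t (j p, 0)) (fun R => t (j (pR R), f (pR R) ⟨R.1, R.2, hpR R⟩ + 1)),
    ?_⟩
  rintro (p | R) (q | R') h
  · simp only [Sum.elim_inl] at h
    have h1 := t.injective h
    rw [Prod.mk.injEq] at h1
    rw [hj h1.1]
  · simp only [Sum.elim_inl, Sum.elim_inr] at h
    have h1 := t.injective h
    rw [Prod.mk.injEq] at h1
    exact absurd h1.2 (by omega)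
  · simp only [Sum.elim_inl, Sum.elim_inr] at h
    have h1 := t.injective h
    rw [Prod.mk.injEq] at h1
    exact absurd h1.2 (by omega)
  · simp only [Sum.elim_inr] at h
    have h1 := t.injective h
    rw [Prod.mk.injEq] at h1
    have h2 : pR R = pR R' := hj h1.1
    have h3 : ∀ (p q : P) (hpq : p = q) (A : {R : Set P × Set P // R ∈ C ∧ (p ∈ R.1 ∨ p ∈ R.2)})
        (B : {R : Set P × Set P // R ∈ C ∧ (q ∈ R.1 ∨ q ∈ R.2)}), f p A = f q B →
        A.1 = B.1 := by
      intro p q hpq A B hAB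
      subst hpq
      rw [hf p hAB]
    have h4 := h3 _ _ h2 ⟨R.1, R.2, hpR R⟩ ⟨R'.1, R'.2, hpR R'⟩ (by omega)
    exact congrArg Sum.inr (Subtype.ext h4)

/-- Sufficiency. -/
theorem su : t_SU.{u, w} := by
  classical
  intro P _ hP hcover X F _ ι hF hFn hX j hj
  obtain ⟨C0, hC0, hcov0, hfin0⟩ := hcover
  -- we may assume that all rectangles have an element
  obtain ⟨C, hC, hcov, hfin, hne⟩ : ∃ C : Set (Set P × Set P),
      (∀ R ∈ C, ∀ d ∈ R.1, ∀ e ∈ R.2, d < e) ∧
      (∀ p q : P, p < q → ∃ R ∈ C, p ∈ R.1 ∧ q ∈ R.2) ∧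
      (∀ p : P, {R ∈ C | p ∈ R.1 ∨ p ∈ R.2}.Finite) ∧
      ∀ R ∈ C, ∃ p, p ∈ R.1 ∨ p ∈ R.2 := by
    refine ⟨{R ∈ C0 | ∃ p, p ∈ R.1 ∨ p ∈ R.2}, fun R hR => hC0 R hR.1, fun p q hpq => ?_,
      fun p => ?_, fun R hR => hR.2⟩
    · obtain ⟨R, hR, h1, h2⟩ := hcov0 p q hpq
      exact ⟨R, ⟨hR, p, Or.inl h1⟩, h1, h2⟩
    · exact (hfin0 p).subset fun R hR => ⟨hR.1.1, hR.2⟩
  obtain ⟨k, hk⟩ := exists_inj j hj C hne hfin
  have hfinC : ∀ p : P, {R : C | p ∈ R.1.1 ∨ p ∈ R.1.2}.Finite := by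
    intro p
    refine Set.Finite.of_finite_image (f := Subtype.val) ?_ Subtype.val_injective.injOn
    refine (hfin p).subset ?_
    rintro _ ⟨R, hR, rfl⟩
    exact ⟨R.2, hR⟩
  have hLD : ∀ p : P, ∃ l : List C, ∀ R, R ∈ l ↔ p ∈ R.1.1 := by
    intro p
    have hf : {R : C | p ∈ R.1.1}.Finite := (hfinC p).subset (fun R hR => Or.inl hR)
    exact ⟨hf.toFinset.toList, fun R => by simp⟩
  have hLU : ∀ p : P, ∃ l : List C, ∀ R, R ∈ l ↔ p ∈ R.1.2 := by
    intro p
    have hf : {R : C | p ∈ R.1.2}.Finite := (hfinC p).subset (fun R hR => Or.inr hR)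
    exact ⟨hf.toFinset.toList, fun R => by simp⟩
  choose LD hLD using hLD
  choose LU hLU using hLU
  let xv : P → F := fun p => ι (k (.inl p))
  let yv : C → F := fun R => ι (k (.inr R))
  let φ : P → F := fun p =>
    if ∃ d, d < p then joinL (xv p) ((LU p).map yv) else meetL (xv p) ((LD p).map yv)
  have hφU : ∀ p, (∃ d, d < p) → φ p = joinL (xv p) ((LU p).map yv) := fun p hp => if_pos hp
  have hφD : ∀ p, (¬ ∃ d, d < p) → φ p = meetL (xv p) ((LD p).map yv) := fun p hp => if_neg hp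
  choose e he using fun ν : P ⊕ C → Prop => exists_hom' hF k hk ν
  have hex : ∀ ν p, e ν (xv p) = ν (.inl p) := fun ν p => he ν _
  have hey : ∀ ν R, e ν (yv R) = ν (.inr R) := fun ν R => he ν _
  have hmono : ∀ (ν : P ⊕ C → Prop) (a b : F), a ≤ b → e ν a → e ν b :=
    fun ν a b hab => OrderHomClass.mono (e ν) hab
  have evU : ∀ ν p, (∃ d, d < p) →
      (e ν (φ p) ↔ ν (.inl p) ∨ ∃ R : C, p ∈ R.1.2 ∧ ν (.inr R)) := by
    intro ν p hp
    rw [hφU p hp, hom_joinL, hex]
    refine or_congr Iff.rfl ?_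
    constructor
    · rintro ⟨b, hb, hb'⟩
      obtain ⟨R, hR, rfl⟩ := List.mem_map.1 hb
      rw [hey] at hb'
      exact ⟨R, (hLU p R).1 hR, hb'⟩
    · rintro ⟨R, hR', hν⟩
      refine ⟨yv R, List.mem_map.2 ⟨R, (hLU p R).2 hR', rfl⟩, ?_⟩
      rw [hey]; exact hν
  have evD : ∀ ν p, (¬ ∃ d, d < p) →
      (e ν (φ p) ↔ ν (.inl p) ∧ ∀ R : C, p ∈ R.1.1 → ν (.inr R)) := by
    intro ν p hp
    rw [hφD p hp, hom_meetL, hex]
    refine and_congr Iff.rfl ?_
    constructor
    · intro h R hR'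
      have := h (yv R) (List.mem_map.2 ⟨R, (hLD p R).2 hR', rfl⟩)
      rwa [hey] at this
    · intro h b hb
      obtain ⟨R, hR, rfl⟩ := List.mem_map.1 hb
      rw [hey]
      exact h R ((hLD p R).1 hR)
  refine ⟨φ, ?_⟩
  intro p q
  constructor
  · intro hpq
    rcases hpq.eq_or_lt with rfl | hpq
    · exact le_rfl
    have hp : ¬ ∃ d, d < p := fun ⟨d, hd⟩ => hP ⟨d, p, q, hd, hpq⟩
    have hq : ∃ d, d < q := ⟨p, hpq⟩
    obtain ⟨R, hR, hpR, hqR⟩ := hcov p q hpq
    rw [hφU q hq, hφD p hp]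
    exact (meetL_le_mem _ _ (yv ⟨R, hR⟩) (List.mem_map.2 ⟨⟨R, hR⟩, (hLD p ⟨R, hR⟩).2 hpR,
      rfl⟩)).trans (mem_le_joinL _ _ (yv ⟨R, hR⟩) (List.mem_map.2 ⟨⟨R, hR⟩,
        (hLU q ⟨R, hR⟩).2 hqR, rfl⟩))
  · intro hle
    by_cases hp : ∃ d, d < p
    · -- `p` is an upper element
      let ν : P ⊕ C → Prop := fun z => z = .inl p
      have h1 : e ν (φ p) := (evU ν p hp).2 (Or.inl rfl)
      have h2 : e ν (φ q) := hmono ν _ _ hle h1
      by_cases hq : ∃ d, d < q
      · rcases (evU ν q hq).1 h2 with h | ⟨R, _, h⟩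
        · exact (Sum.inl.inj h).symm.le
        · cases h
      · have h := ((evD ν q hq).1 h2).1
        exact (Sum.inl.inj h).symm.le
    · let ν : P ⊕ C → Prop := fun z => z = .inl p ∨ ∃ R : C, p ∈ R.1.1 ∧ z = .inr R
      have h1 : e ν (φ p) := (evD ν p hp).2 ⟨Or.inl rfl, fun R hpR => Or.inr ⟨R, hpR, rfl⟩⟩
      have h2 : e ν (φ q) := hmono ν _ _ hle h1
      by_cases hq : ∃ d, d < q
      · rcases (evU ν q hq).1 h2 with h | ⟨R, hqR, h⟩
        · rcases h with h | ⟨R, _, h⟩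
          · exact (Sum.inl.inj h).symm.le
          · cases h
        · rcases h with h | ⟨R', hpR', h⟩
          · cases h
          · obtain rfl := Sum.inr.inj h
            exact (hC R.1 R.2 p hpR' q hqR).le
      · rcases ((evD ν q hq).1 h2).1 with h | ⟨R, _, h⟩
        · exact (Sum.inl.inj h).symm.le
        · cases h

end Pool.Agent.Y970.FV
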